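import Mathlib
import Pool.Agent.Q106.PS5

set_option autoImplicit false

/-!
# A nonzero quasi-Banach space with the Schur `p`-property and trivial dual

For `0 < p < σ < 1` let `X` be the completion of the finitely supported functions on `[0, 1]`
(modulo the functions carried by the base point) for the `p`-norm
`‖v‖ ^ p = inf { ∑ |a_i| ^ p |s_i - t_i| ^ σ : v = ∑ a_i (δ_{s_i} - δ_{t_i}) }`, that is, the
Lipschitz free `p`-space over the `q`-metric space `([0, 1], |s - t| ^ (1 / q))`, `q = p / σ`,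
`p < q < 1`.  (For `q = p` this space is `L_p`.)
-/

namespace Pool.Agent.Results.MP_86e52e_an.TrivialDual

open Pool.Agent.H262.FreeP

/-- `(X, N)` is a quasi-Banach space over `𝕜`: `N` is a complete quasi-norm on `X`. -/
structure IsQuasiBanach (𝕜 : Type) [RCLike 𝕜] (X : Type) [AddCommGroup X] [Module 𝕜 X]
    (N : X → ℝ) : Prop where
  nonneg : ∀ x, 0 ≤ N x
  eq_zero_iff : ∀ x, N x = 0 ↔ x = 0
  smul : ∀ (c : 𝕜) (x : X), N (c • x) = ‖c‖ * N x
  quasi : ∃ κ : ℝ, 1 ≤ κ ∧ ∀ x y, N (x + y) ≤ κ * (N x + N y)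
  complete : ∀ s : ℕ → X, (∀ ε > 0, ∃ K : ℕ, ∀ m ≥ K, ∀ n ≥ K, N (s m - s n) < ε) →
    ∃ z, Filter.Tendsto (fun n => N (s n - z)) Filter.atTop (nhds 0)

/-- The set `B` is equivalent to the unit vector basis of `ℓ_p`. -/
def EquivBasis (𝕜 : Type) [RCLike 𝕜] (p : ℝ) {X : Type} [AddCommGroup X] [Module 𝕜 X]
    (N : X → ℝ) (B : Set X) : Prop :=
  ∃ c C : ℝ, 0 < c ∧ c ≤ C ∧ ∀ F : Finset X, (F : Set X) ⊆ B → ∀ a : X → 𝕜,
    c * (∑ x ∈ F, ‖a x‖ ^ p) ^ (1 / p) ≤ N (∑ x ∈ F, a x • x) ∧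
    N (∑ x ∈ F, a x • x) ≤ C * (∑ x ∈ F, ‖a x‖ ^ p) ^ (1 / p)

/-- The Schur `p`-property: every infinite, bounded, uniformly separated set contains an infinite
subset that is equivalent to the unit vector basis of `ℓ_p`. -/
def SchurProperty (𝕜 : Type) [RCLike 𝕜] (p : ℝ) (X : Type) [AddCommGroup X] [Module 𝕜 X]
    (N : X → ℝ) : Prop :=
  ∀ A : Set X, A.Infinite → (∃ R : ℝ, ∀ x ∈ A, N x ≤ R) →
    (∃ η : ℝ, 0 < η ∧ ∀ x ∈ A, ∀ y ∈ A, x ≠ y → η ≤ N (x - y)) →
    ∃ B : Set X, B ⊆ A ∧ B.Infinite ∧ EquivBasis 𝕜 p N B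

/-- The dual is trivial: every linear functional that is bounded with respect to `N` (equivalently,
continuous) is zero. -/
def TrivialDual (𝕜 : Type) [RCLike 𝕜] (X : Type) [AddCommGroup X] [Module 𝕜 X]
    (N : X → ℝ) : Prop :=
  ∀ φ : X →ₗ[𝕜] 𝕜, (∃ C : ℝ, ∀ x, ‖φ x‖ ≤ C * N x) → φ = 0

theorem quasi_of_p {p a b c : ℝ} (hp : 0 < p) (hp1 : p < 1) (ha : 0 ≤ a) (hb : 0 ≤ b) (hc : 0 ≤ c)
    (h : c ^ p ≤ a ^ p + b ^ p) : c ≤ 2 ^ (1 / p) * (a + b) := by
  have h1 : a ^ p ≤ (a + b) ^ p := Real.rpow_le_rpow ha (by linarith) hp.le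
  have h2 : b ^ p ≤ (a + b) ^ p := Real.rpow_le_rpow hb (by linarith) hp.le
  have h3 : c ^ p ≤ (2 ^ (1 / p) * (a + b)) ^ p := by
    rw [Real.mul_rpow (by positivity) (by positivity), ← Real.rpow_mul (by norm_num),
      one_div_mul_cancel hp.ne', Real.rpow_one]
    linarith
  exact (Real.rpow_le_rpow_iff hc (by positivity) hp).mp h3

theorem isQuasiBanach {𝕜 : Type} [RCLike 𝕜] {p : ℝ} (hp : 0 < p) (hp1 : p < 1) {X : Type}
    [AddCommGroup X] [Module 𝕜 X] {N : X → ℝ} (h : IsPBanach 𝕜 p X N) : IsQuasiBanach 𝕜 X N where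
  nonneg := h.nonneg
  eq_zero_iff := h.eq_zero_iff
  smul := h.smul
  quasi := ⟨2 ^ (1 / p), Real.one_le_rpow (by norm_num) (by positivity), fun x y =>
    quasi_of_p hp hp1 (h.nonneg x) (h.nonneg y) (h.nonneg _) (h.add_le x y)⟩
  complete := h.complete

theorem schurProperty {𝕜 : Type} [RCLike 𝕜] {p : ℝ} (hp : 0 < p) {X : Type}
    [AddCommGroup X] [Module 𝕜 X] {N : X → ℝ} (hX : IsPBanach 𝕜 p X N) (h : SchurP 𝕜 p X N) :
    SchurProperty 𝕜 p X N := by
  classical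
  intro A hA hb hs
  obtain ⟨x, hxA, c, C, hc, hcC, hx⟩ := h A hA hb hs
  have hsum0 : ∀ b : ℕ →₀ 𝕜, 0 ≤ b.sum fun _ t => ‖t‖ ^ p := fun b =>
    Finset.sum_nonneg fun _ _ => Real.rpow_nonneg (norm_nonneg _) _
  have hinj : Function.Injective x := by
    intro n m hnm
    by_contra hne
    have h1 := (hx (Finsupp.single n 1 - Finsupp.single m 1)).1
    have h2 : ((Finsupp.single n (1 : 𝕜) - Finsupp.single m 1).sum fun k t => t • x k) = 0 := by
      have h3 := map_sub (Finsupp.linearCombination 𝕜 x) (Finsupp.single n 1) (Finsupp.single m 1)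
      rw [Finsupp.linearCombination_single, Finsupp.linearCombination_single, hnm, sub_self] at h3
      exact h3
    rw [h2, (hX.eq_zero_iff 0).mpr rfl] at h1
    set b : ℕ →₀ 𝕜 := Finsupp.single n (1 : 𝕜) - Finsupp.single m 1 with hb'
    have h5 : b n = 1 := by
      rw [hb', Finsupp.sub_apply, Finsupp.single_eq_same, Finsupp.single_eq_of_ne hne, sub_zero]
    have h6 : n ∈ b.support := by
      rw [Finsupp.mem_support_iff, h5]; exact one_ne_zero
    have h4 : (1 : ℝ) ≤ b.sum fun _ t => ‖t‖ ^ p := by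
      have h7 := Finset.single_le_sum (f := fun k => ‖b k‖ ^ p)
        (fun _ _ => Real.rpow_nonneg (norm_nonneg _) _) h6
      simp only [h5, norm_one, Real.one_rpow] at h7
      exact h7
    have h8 : 0 < c * (b.sum fun _ t => ‖t‖ ^ p) ^ (1 / p) :=
      mul_pos hc (Real.rpow_pos_of_pos (by linarith) _)
    linarith
  refine ⟨Set.range x, ?_, Set.infinite_range_of_injective hinj, c, C, hc, hcC, fun F hF a => ?_⟩
  · rintro _ ⟨n, rfl⟩
    exact hxA n
  · set G : Finset ℕ := F.preimage x hinj.injOn with hG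
    have hFG : F = G.image x := by
      ext y
      rw [Finset.mem_image]
      constructor
      · intro hy
        obtain ⟨n, rfl⟩ := hF hy
        exact ⟨n, Finset.mem_preimage.mpr hy, rfl⟩
      · rintro ⟨n, hn, rfl⟩
        exact Finset.mem_preimage.mp hn
    have hS : ∀ {E : Type} [AddCommMonoid E] (g : X → E), ∑ y ∈ F, g y = ∑ n ∈ G, g (x n) := by
      intro E _ g
      conv_lhs => rw [hFG]
      exact Finset.sum_image fun n _ m _ hnm => hinj hnm
    set b : ℕ →₀ 𝕜 := Finsupp.indicator G fun n _ => a (x n) with hb'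
    have hbn : ∀ n ∈ G, b n = a (x n) := fun n hn => Finsupp.indicator_of_mem hn _
    have hsub : b.support ⊆ G := Finsupp.support_indicator_subset _ _
    have e1 : (b.sum fun _ t => ‖t‖ ^ p) = ∑ y ∈ F, ‖a y‖ ^ p := by
      rw [hS (fun y => ‖a y‖ ^ p), Finsupp.sum_of_support_subset b hsub _ (fun n _ => by
        rw [norm_zero, Real.zero_rpow hp.ne'])]
      exact Finset.sum_congr rfl fun n hn => by rw [hbn n hn]
    have e2 : (b.sum fun n t => t • x n) = ∑ y ∈ F, a y • y := by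
      rw [hS (fun y => a y • y), Finsupp.sum_of_support_subset b hsub (fun n t => t • x n)
        (fun n _ => zero_smul _ _)]
      exact Finset.sum_congr rfl fun n hn => by rw [hbn n hn]
    have h1 := hx b
    rw [e1, e2] at h1
    exact h1

/-- **Theorem.** For every `0 < p < 1` and for `𝕜 = ℝ` or `ℂ` there is a nonzero quasi-Banach space
over `𝕜` (even a `p`-Banach space) that has the Schur `p`-property and trivial dual. -/
theorem result (𝕜 : Type) [RCLike 𝕜] (p : ℝ) (hp : 0 < p) (hp1 : p < 1) :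
    ∃ (X : Type) (_ : AddCommGroup X) (_ : Module 𝕜 X) (N : X → ℝ),
      IsQuasiBanach 𝕜 X N ∧ (∀ x y, N (x + y) ^ p ≤ N x ^ p + N y ^ p) ∧ Nontrivial X ∧
      SchurProperty 𝕜 p X N ∧ TrivialDual 𝕜 X N := by
  obtain ⟨X, i1, i2, N, h1, h2, h3, h4⟩ :=
    Pool.Agent.Q106.PS.exists_schur_trivial_dual 𝕜 hp hp1
  exact ⟨X, i1, i2, N, isQuasiBanach hp hp1 h1, h1.add_le, h2, schurProperty hp h1 h3, h4⟩

end Pool.Agent.Results.MP_86e52e_an.TrivialDual
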